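import Mathlib
import Pool.Agent.W313.HB.Stm2
import Pool.Agent.W335.BMX.Odd

/-!
# Rational points on almost all twists: assembly in several variables

Part T1 of project HB.
-/

set_option autoImplicit false
set_option linter.all false

namespace Pool.Agent.W613.HBT

open Finset Polynomial
open Pool.Agent.W313.BMX (Splits)
open Pool.Agent.W313.HB

variable {n : ℕ}

theorem lineP_mul (F G : MvPolynomial (Fin (n + 1)) ℤ) (w v : Fin (n + 1) → ℤ) :
    lineP (F * G) w v = lineP F w v * lineP G w v := by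
  unfold lineP
  exact map_mul _ _ _

theorem lineP_eval (F : MvPolynomial (Fin (n + 1)) ℤ) (w v : Fin (n + 1) → ℤ) (t : ℤ) :
    (lineP F w v).eval t = MvPolynomial.eval (fun i => w i + t * v i) F := by
  unfold lineP
  induction F using MvPolynomial.induction_on with
  | C a => simp
  | add p q hp hq => rw [map_add, eval_add, hp, hq, map_add]
  | mul_X p i hp =>
    simp only [map_mul, MvPolynomial.aeval_X, eval_mul, hp, MvPolynomial.eval_X, eval_add, eval_C,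
      eval_X]
    ring

theorem lineP_comp (F : MvPolynomial (Fin (n + 1)) ℤ) (w v : Fin (n + 1) → ℤ) (c : ℤ) :
    lineP F w (fun i => c * v i) = (lineP F w v).comp (C c * X) := by
  unfold lineP
  induction F using MvPolynomial.induction_on with
  | C a => simp
  | add p q hp hq => rw [map_add, map_add, add_comp, hp, hq]
  | mul_X p i hp =>
    rw [map_mul, map_mul, MvPolynomial.aeval_X, MvPolynomial.aeval_X, mul_comp, hp]
    simp only [add_comp, C_comp, X_comp, mul_comp, C_mul]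
    ring

/-- Separability after a base change. -/
theorem sep_of_comb {k : Type} [Field k] (φ : ℤ →+* k) (f a b : ℤ[X]) (c r : ℤ)
    (h : a * f + b * derivative f = C r) (hcr : φ (c * r) ≠ 0) :
    ((f.comp (C c * X)).map φ).Separable := by
  set g := f.comp (C c * X) with hg
  have hd : derivative g = C c * (derivative f).comp (C c * X) := by
    rw [hg, derivative_comp]
    simp
  have e : (C c * a.comp (C c * X)) * g + b.comp (C c * X) * derivative g = C (c * r) := by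
    have h1 := congrArg (fun q : ℤ[X] => C c * q.comp (C c * X)) h
    simp only [add_comp, mul_comp, C_comp] at h1
    rw [hd, hg, C_mul, ← h1]
    ring
  rw [Polynomial.separable_def, derivative_map]
  refine ⟨C (φ (c * r))⁻¹ * (C c * a.comp (C c * X)).map φ,
    C (φ (c * r))⁻¹ * (b.comp (C c * X)).map φ, ?_⟩
  have h2 := congrArg (Polynomial.map φ) e
  rw [Polynomial.map_add, Polynomial.map_mul, Polynomial.map_mul (p := b.comp (C c * X)), Polynomial.map_C] at h2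
  calc _ = C (φ (c * r))⁻¹ * ((C c * a.comp (C c * X)).map φ * g.map φ +
        (b.comp (C c * X)).map φ * (derivative g).map φ) := by ring
    _ = 1 := by
      rw [h2, ← C_mul, inv_mul_cancel₀ hcr, C_1]

theorem comp_lead (f : ℤ[X]) (c : ℤ) (hc : c ≠ 0) :
    (f.comp (C c * X)).natDegree = f.natDegree ∧
    (f.comp (C c * X)).leadingCoeff = f.leadingCoeff * c ^ f.natDegree := by
  have h1 : (C c * X : ℤ[X]).natDegree = 1 := natDegree_C_mul_X c hc
  constructor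
  · rw [natDegree_comp, h1, mul_one]
  · rw [leadingCoeff_comp (by rw [h1]; exact one_ne_zero)]
    congr 2
    rw [leadingCoeff_mul, leadingCoeff_C, leadingCoeff_X, mul_one]

theorem aeval_cast (K : Type) [Field K] (F : MvPolynomial (Fin (n + 1)) ℤ)
    (y : Fin (n + 1) → ℤ) :
    MvPolynomial.aeval (fun i => ((y i : ℤ) : K)) F = ((MvPolynomial.eval y F : ℤ) : K) := by
  induction F using MvPolynomial.induction_on with
  | C a => simp
  | add p q hp hq => simp [hp, hq]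
  | mul_X p i hp => simp [hp]

/-- Chinese remainder theorem. -/
theorem crt (S : Finset ℕ) (m t : ℕ → ℕ) (hm : ∀ p ∈ S, m p ≠ 0)
    (hc : ∀ p ∈ S, ∀ q ∈ S, p ≠ q → Nat.Coprime (m p) (m q)) :
    ∃ k : ℕ, ∀ p ∈ S, k ≡ t p [MOD m p] := by
  obtain ⟨k, hk⟩ := Nat.chineseRemainderOfFinset t m S hm
    (fun p hp q hq hpq => hc p hp q hq hpq)
  exact ⟨k, hk⟩

theorem card_mult (S : Finset ℕ) (H : ℕ) :
    (((Icc 1 H).filter (fun a : ℕ => ∃ p ∈ S, p ∣ a)).card : ℝ) ≤ (∑ p ∈ S, 1 / (p : ℝ)) * H := by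
  classical
  have hsub : (Icc 1 H).filter (fun a : ℕ => ∃ p ∈ S, p ∣ a) ⊆
      S.biUnion (fun p => (Ioc 0 H).filter (fun a => p ∣ a)) := by
    intro a ha
    simp only [mem_filter, mem_Icc, mem_biUnion, mem_Ioc] at ha ⊢
    obtain ⟨⟨h1, h2⟩, p, hp, hpa⟩ := ha
    exact ⟨p, hp, ⟨h1, h2⟩, hpa⟩
  have h1 := (card_le_card hsub).trans card_biUnion_le
  calc (((Icc 1 H).filter (fun a : ℕ => ∃ p ∈ S, p ∣ a)).card : ℝ)
      ≤ ((∑ p ∈ S, ((Ioc 0 H).filter (fun a => p ∣ a)).card : ℕ) : ℝ) := by exact_mod_cast h1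
    _ = ∑ p ∈ S, ((H / p : ℕ) : ℝ) := by
      push_cast
      refine sum_congr rfl fun p hp => ?_
      rw [Nat.Ioc_filter_dvd_card_eq_div]
    _ ≤ ∑ p ∈ S, 1 / (p : ℝ) * H := by
      refine sum_le_sum fun p hp => ?_
      refine Nat.cast_div_le.trans (le_of_eq ?_)
      ring
    _ = _ := by rw [sum_mul]

theorem count {ι : Type} [DecidableEq ι] (T : Finset ι) (Bad : Finset ℕ) (D E : ι → Finset ℕ) (e H : ℝ)
    (hsub : ∀ a ∈ Bad, ∃ x ∈ T, a ∈ D x ∨ a ∈ E x)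
    (hD : ∀ x ∈ T, ((D x).card : ℝ) ≤ e * H) (hE : ∀ x ∈ T, ((E x).card : ℝ) ≤ e * H) :
    (Bad.card : ℝ) ≤ T.card * (2 * e) * H := by
  have h1 : Bad ⊆ T.biUnion (fun x => D x ∪ E x) := by
    intro a ha
    obtain ⟨x, hx, h⟩ := hsub a ha
    exact mem_biUnion.2 ⟨x, hx, mem_union.2 h⟩
  have h2 := (card_le_card h1).trans card_biUnion_le
  calc (Bad.card : ℝ) ≤ ((∑ x ∈ T, (D x ∪ E x).card : ℕ) : ℝ) := by exact_mod_cast h2
    _ ≤ ∑ x ∈ T, (2 * e * H) := by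
      push_cast
      refine sum_le_sum fun x hx => ?_
      have h3 : ((D x ∪ E x).card : ℝ) ≤ (D x).card + (E x).card := by
        exact_mod_cast card_union_le _ _
      linarith [hD x hx, hE x hx]
    _ = _ := by
      rw [sum_const, nsmul_eq_mul]
      ring

theorem splits_odd (q : ℕ) [hq : Fact q.Prime] (hq2 : q ≠ 2) (P1 P2 : ℤ[X]) (a : ℕ) (s t : ℤ)
    (hst : (q : ℤ) ∣ t - s) (h1 : q ∣ a → jacobiSym ((-(P1 * P2)).eval s) q = 1)
    (h2 : ¬ q ∣ a → ¬ (q : ℤ) ∣ (P1 * P2).eval s) :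
    Splits ((((a : ℤ) * P1.eval t : ℤ)) : ℚ_[q]) ((((a : ℤ) * P2.eval t : ℤ)) : ℚ_[q]) := by
  by_cases ha : q ∣ a
  · have h := h1 ha
    have hmod : (q : ℤ) ∣ (-(P1 * P2)).eval t - (-(P1 * P2)).eval s :=
      hst.trans (sub_dvd_eval_sub t s _)
    have hmod' : (-(P1 * P2)).eval t % (q : ℤ) = (-(P1 * P2)).eval s % (q : ℤ) :=
      (Int.modEq_iff_dvd.2 hmod).symm
    have h3 : legendreSym q ((-(P1 * P2)).eval t) = 1 := by
      rw [jacobiSym.legendreSym.to_jacobiSym, jacobiSym.mod_left' hmod', h]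
    have hm : ¬ (q : ℤ) ∣ (-(P1 * P2)).eval t := by
      intro hdv
      have h4 : legendreSym q ((-(P1 * P2)).eval t) = 0 := by
        rw [legendreSym.eq_zero_iff, ZMod.intCast_zmod_eq_zero_iff_dvd]
        exact hdv
      rw [h3] at h4
      exact one_ne_zero h4
    have hone : ¬ (q : ℤ) ∣ 1 := by
      intro h5
      have h6 : q ∣ 1 := by exact_mod_cast h5
      exact hq.out.one_lt.ne' (Nat.dvd_one.1 h6)
    obtain ⟨u, hu⟩ := Pool.Agent.W335.BMX.odd1 q hq2 ((-(P1 * P2)).eval t) 1 hm hone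
      (by rw [h3, legendreSym.at_one])
    have hu' : u * u = -((P1.eval t : ℤ) : ℚ_[q]) * ((P2.eval t : ℤ) : ℚ_[q]) := by
      rw [← hu]
      rw [eval_neg, eval_mul]
      push_cast
      ring
    have hne : (((-(P1 * P2)).eval t : ℤ) : ℚ_[q]) ≠ 0 := by
      intro h0
      have : (-(P1 * P2)).eval t = 0 := by exact_mod_cast h0
      exact hm (this ▸ dvd_zero _)
    refine ⟨u, ((P1.eval t : ℤ) : ℚ_[q]), 0, Or.inl ?_, ?_⟩
    · rintro rfl
      apply hne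
      rw [mul_one] at hu
      rw [hu, mul_zero]
    · push_cast
      have : (a : ℚ_[q]) * ((P1.eval t : ℤ) : ℚ_[q]) * u ^ 2 +
          (a : ℚ_[q]) * ((P2.eval t : ℤ) : ℚ_[q]) * ((P1.eval t : ℤ) : ℚ_[q]) ^ 2 =
          (a : ℚ_[q]) * ((P1.eval t : ℤ) : ℚ_[q]) * (u * u +
            ((P1.eval t : ℤ) : ℚ_[q]) * ((P2.eval t : ℤ) : ℚ_[q])) := by ring
      rw [this, hu']
      ring
  · have h := h2 ha
    have hmod : (q : ℤ) ∣ (P1 * P2).eval t - (P1 * P2).eval s :=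
      hst.trans (sub_dvd_eval_sub t s _)
    have h3 : ¬ (q : ℤ) ∣ (P1 * P2).eval t := by
      intro h4
      exact h ((dvd_iff_dvd_of_dvd_sub hmod).1 h4)
    rw [eval_mul] at h3
    have ha' : ¬ (q : ℤ) ∣ (a : ℤ) := by
      intro h4
      exact ha (by exact_mod_cast h4)
    refine Pool.Agent.W335.BMX.odd2 q hq2 _ _ ?_ ?_
    · intro h4
      rcases Int.Prime.dvd_mul' hq.out h4 with h5 | h5
      · exact ha' h5
      · exact h3 (h5.mul_right _)
    · intro h4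
      rcases Int.Prime.dvd_mul' hq.out h4 with h5 | h5
      · exact ha' h5
      · exact h3 (h5.mul_left _)

theorem exists_s {D z2 : ℕ} (hz2 : ∀ p : ℕ, p.Prime → z2 ≤ p → ∀ F : ℤ[X],
    F.natDegree ≤ D → 1 ≤ (F.map (Int.castRingHom (ZMod p))).natDegree →
    (F.map (Int.castRingHom (ZMod p))).Separable → ∀ σ : ℤ, (σ = 1 ∨ σ = -1) →
      ∃ x : ℕ, x < p ∧ jacobiSym (F.eval (x : ℤ)) p = σ)
    (q : ℕ) (hq : q.Prime) (hz : z2 ≤ q) (hDq : D < q) (G : ℤ[X]) (hdeg : G.natDegree = D)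
    (hD : 1 ≤ D) (hlc : ¬ (q : ℤ) ∣ G.leadingCoeff) (a : ℕ)
    (hsep : q ∣ a → (G.map (Int.castRingHom (ZMod q))).Separable) :
    ∃ s : ℕ, (q ∣ a → jacobiSym ((-G).eval (s : ℤ)) q = 1) ∧
      (¬ q ∣ a → ¬ (q : ℤ) ∣ G.eval (s : ℤ)) := by
  haveI := Fact.mk hq
  have hlc' : (Int.castRingHom (ZMod q)) G.leadingCoeff ≠ 0 := by
    rw [eq_intCast, Ne, ZMod.intCast_zmod_eq_zero_iff_dvd]
    exact hlc
  have hdm : (G.map (Int.castRingHom (ZMod q))).natDegree = D := by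
    rw [natDegree_map_of_leadingCoeff_ne_zero _ hlc', hdeg]
  by_cases ha : q ∣ a
  · have hs := hsep ha
    obtain ⟨s, -, hs1⟩ := hz2 q hq hz (-G) (by rw [natDegree_neg, hdeg])
      (by rw [Polynomial.map_neg, natDegree_neg, hdm]; exact hD)
      (by
        rw [Polynomial.map_neg]
        have h1 : -(G.map (Int.castRingHom (ZMod q))) =
            (-1) * G.map (Int.castRingHom (ZMod q)) := by
          ring
        rw [h1]
        exact Separable.unit_mul isUnit_one.neg hs) 1 (Or.inl rfl)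
    exact ⟨s, fun _ => hs1, fun h => absurd ha h⟩
  · by_contra hcon
    push Not at hcon
    have h0 : G.map (Int.castRingHom (ZMod q)) = 0 := by
      refine eq_zero_of_natDegree_lt_card_of_eval_eq_zero' _ (univ : Finset (ZMod q)) ?_ ?_
      · intro z _
        obtain ⟨s, rfl⟩ : ∃ s : ℕ, (s : ZMod q) = z := ⟨z.val, ZMod.natCast_zmod_val z⟩
        have h1 := (hcon s (fun h => absurd h ha)).2
        have h2 : (((G.eval (s : ℤ)) : ℤ) : ZMod q) = 0 :=
          (ZMod.intCast_zmod_eq_zero_iff_dvd _ _).2 h1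
        have h3 : (G.map (Int.castRingHom (ZMod q))).eval ((Int.castRingHom (ZMod q)) (s : ℤ)) =
            (Int.castRingHom (ZMod q)) (G.eval (s : ℤ)) := by
          rw [eval_map, eval₂_hom]
        rw [eq_intCast, eq_intCast, h2] at h3
        simpa using h3
      · rw [hdm, card_univ, ZMod.card]
        exact hDq
    rw [h0, natDegree_zero] at hdm
    omega

theorem line_facts (hl : S_LDEG) {D : ℕ} (F : MvPolynomial (Fin (n + 1)) ℤ)
    (hF : F.IsHomogeneous D) (w v : Fin (n + 1) → ℤ) (hv : MvPolynomial.eval v F ≠ 0) (c : ℤ)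
    (hc : c ≠ 0) : (lineP F w (fun i => c * v i)).natDegree = D ∧
    (lineP F w (fun i => c * v i)).leadingCoeff = MvPolynomial.eval v F * c ^ D := by
  obtain ⟨h1, h2, -⟩ := hl n D F hF w v hv
  obtain ⟨h3, h4⟩ := comp_lead (lineP F w v) c hc
  rw [lineP_comp, h3, h4, h1, h2]
  exact ⟨rfl, rfl⟩

/-- All the points of the residue class `x` are local points at the primes in `Ps`. -/
def Typ (A B : MvPolynomial (Fin (n + 1)) ℤ) (K : ℕ → ℕ) (z : ℕ) (a : ℕ)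
    (x : Fin (n + 1) → ℕ) : Prop :=
  ∀ (p : ℕ) [Fact p.Prime], p ≤ z → ∀ y : Fin (n + 1) → ℤ,
    (∀ i, ((p ^ K p : ℕ) : ℤ) ∣ y i - x i) →
    Splits ((((a : ℤ) * MvPolynomial.eval y A : ℤ)) : ℚ_[p])
      ((((a : ℤ) * MvPolynomial.eval y B : ℤ)) : ℚ_[p])

open Classical in
theorem per_type (hc : S_CORE) (hl : S_LDEG) {α β : ℕ} (A B : MvPolynomial (Fin (n + 1)) ℤ)
    (hA : A.IsHomogeneous (2 * α)) (hB : B.IsHomogeneous (2 * β)) (hαβ : 1 ≤ α + β)
    (v : Fin (n + 1) → ℤ) (hvA : MvPolynomial.eval v A ≠ 0) (hvB : MvPolynomial.eval v B ≠ 0)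
    (hvpos : 0 < MvPolynomial.eval v A ∨ 0 < MvPolynomial.eval v B) (z2 : ℕ)
    (hz2 : ∀ p : ℕ, p.Prime → z2 ≤ p → ∀ F : ℤ[X],
      F.natDegree ≤ 2 * α + 2 * β → 1 ≤ (F.map (Int.castRingHom (ZMod p))).natDegree →
      (F.map (Int.castRingHom (ZMod p))).Separable → ∀ σ : ℤ, (σ = 1 ∨ σ = -1) →
        ∃ x : ℕ, x < p ∧ jacobiSym (F.eval (x : ℤ)) p = σ)
    (K : ℕ → ℕ) (z : ℕ) (h2 : 2 ≤ z) (hz2' : z2 ≤ z) (hDz : 2 * α + 2 * β ≤ z)
    (hFv : ∀ p : ℕ, p.Prime → (p : ℤ) ∣ MvPolynomial.eval v (A * B) → p ≤ z)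
    (N0 : ℕ) (hN1 : 1 ≤ N0) (hNp : ∀ p : ℕ, p.Prime → (p ∣ N0 ↔ p ≤ z))
    (hNK : ∀ p : ℕ, p.Prime → p ≤ z → p ^ K p ∣ N0)
    (x : Fin (n + 1) → ℕ) (w : Fin (n + 1) → ℤ) (hw : ∀ i, (N0 : ℤ) ∣ w i - x i) (r0 : ℤ)
    (hr0 : r0 ≠ 0) (a1 b1 : ℤ[X])
    (hab : a1 * lineP (A * B) w v + b1 * derivative (lineP (A * B) w v) = C r0)
    (ε' : ℝ) (hε' : 0 < ε') :
    ∃ H0 : ℕ, ∀ H : ℕ, H0 ≤ H → (((Icc 1 H).filter (fun a : ℕ => Squarefree a ∧
      Typ A B K z a x ∧ ¬ HasP A B (a : ℤ) (a : ℤ) ℚ ∧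
      ∀ p : ℕ, p.Prime → (p : ℤ) ∣ r0 → ¬ p ∣ N0 → ¬ p ∣ a)).card : ℝ) ≤ ε' * H := by
  have hN0 : (N0 : ℤ) ≠ 0 := by exact_mod_cast (by omega : N0 ≠ 0)
  have hvF : MvPolynomial.eval v (A * B) ≠ 0 := by
    rw [map_mul]
    exact mul_ne_zero hvA hvB
  have hF : (A * B).IsHomogeneous (2 * α + 2 * β) := hA.mul hB
  set P1 := lineP A w (fun i => (N0 : ℤ) * v i) with hP1
  set P2 := lineP B w (fun i => (N0 : ℤ) * v i) with hP2
  have hP : P1 * P2 = lineP (A * B) w (fun i => (N0 : ℤ) * v i) := (lineP_mul _ _ _ _).symm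
  obtain ⟨hd, hlc⟩ := line_facts hl (A * B) hF w v hvF N0 hN0
  obtain ⟨hd1, hlc1⟩ := line_facts hl A hA w v hvA N0 hN0
  obtain ⟨hd2, hlc2⟩ := line_facts hl B hB w v hvB N0 hN0
  rw [← hP] at hd hlc
  rw [← hP1] at hd1 hlc1
  rw [← hP2] at hd2 hlc2
  have hgood : Good (P1 * P2) := by
    refine ⟨?_, by rw [hd]; omega⟩
    rw [hP, lineP_comp]
    refine sep_of_comb (Int.castRingHom ℚ) _ a1 b1 _ r0 hab ?_
    rw [eq_intCast]
    exact_mod_cast mul_ne_zero hN0 hr0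
  have hNpos : (0 : ℤ) < N0 := by exact_mod_cast hN1
  have hpos : 0 < P1.leadingCoeff ∨ 0 < P2.leadingCoeff := by
    rcases hvpos with h | h
    · left
      rw [hlc1]
      exact mul_pos h (pow_pos hNpos _)
    · right
      rw [hlc2]
      exact mul_pos h (pow_pos hNpos _)
  obtain ⟨z3, hz3⟩ := hc P1 P2 hgood hpos
  set Q := (range (z3 + 1)).filter (fun p => p.Prime ∧ ¬ p ∣ N0) with hQ
  have hQm : ∀ p, p ∈ Q ↔ p ≤ z3 ∧ p.Prime ∧ ¬ p ∣ N0 := by
    intro p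
    rw [hQ, mem_filter, mem_range, Nat.lt_succ_iff]
  obtain ⟨H0, hH0⟩ := hz3 (N0 * ∏ p ∈ Q, p)
    (Nat.mul_pos hN1 (Finset.prod_pos fun p hp => ((hQm p).1 hp).2.1.pos))
    (fun p hp hpz => by
      by_cases h : p ∣ N0
      · exact h.mul_right _
      · exact (dvd_prod_of_mem _ ((hQm p).2 ⟨hpz, hp, h⟩)).mul_left _) ε' hε'
  refine ⟨H0, fun H hH => le_trans ?_ (hH0 H hH)⟩
  refine Nat.cast_le.2 (card_le_card ?_)
  intro a ha
  rw [mem_filter] at ha ⊢
  obtain ⟨haI, hasq, haT, haP, har⟩ := ha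
  refine ⟨haI, hasq, ?_⟩
  -- residues
  have hs : ∀ q : ℕ, ∃ s : ℕ, q ∈ Q → (q ∣ a → jacobiSym ((-(P1 * P2)).eval (s : ℤ)) q = 1) ∧
      (¬ q ∣ a → ¬ (q : ℤ) ∣ (P1 * P2).eval (s : ℤ)) := by
    intro q
    by_cases hq : q ∈ Q
    · obtain ⟨hqz, hqp, hqN⟩ := (hQm q).1 hq
      have hqz' : z < q := by
        by_contra h
        exact hqN ((hNp q hqp).2 (by omega))
      obtain ⟨s, hs⟩ := exists_s hz2 q hqp (by omega) (by omega) (P1 * P2) hd (by omega)
        (by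
          rw [hlc]
          intro h
          rcases Int.Prime.dvd_mul' hqp h with h | h
          · exact absurd (hFv q hqp h) (by omega)
          · have h5 := Int.Prime.dvd_pow' hqp h
            exact hqN (by exact_mod_cast h5)) a
        (by
          intro hqa
          rw [hP, lineP_comp]
          haveI := Fact.mk hqp
          refine sep_of_comb (Int.castRingHom (ZMod q)) _ a1 b1 _ r0 hab ?_
          rw [eq_intCast, Ne, ZMod.intCast_zmod_eq_zero_iff_dvd]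
          intro h
          rcases Int.Prime.dvd_mul' hqp h with h | h
          · exact hqN (by exact_mod_cast h)
          · exact har q hqp h hqN hqa)
      exact ⟨s, fun _ => hs⟩
    · exact ⟨0, fun h => absurd h hq⟩
  choose s hs using hs
  obtain ⟨t0, ht0⟩ := crt Q (fun q => q) s (fun q hq => ((hQm q).1 hq).2.1.ne_zero)
    (fun p hp q hq hpq => (Nat.coprime_primes ((hQm p).1 hp).2.1 ((hQm q).1 hq).2.1).2 hpq)
  refine ⟨t0, ?_, ?_⟩
  · intro p hpF hpN t htN hPt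
    have hp := hpF.out
    by_cases hpN0 : p ∣ N0
    · have hpz := (hNp p hp).1 hpN0
      rw [hP1, hP2, lineP_eval, lineP_eval]
      refine haT p hpz _ fun i => ?_
      have h1 : ((p ^ K p : ℕ) : ℤ) ∣ (N0 : ℤ) := by exact_mod_cast hNK p hp hpz
      have e : w i + t * ((N0 : ℤ) * v i) - x i = (w i - x i) + N0 * (t * v i) := by ring
      rw [e]
      exact h1.trans ((hw i).add (dvd_mul_right _ _))
    · have hpQ : p ∈ Q := by
        rcases (Nat.Prime.dvd_mul hp).1 hpN with h | h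
        · exact absurd h hpN0
        · obtain ⟨q, hq, hpq⟩ := (Prime.dvd_finset_prod_iff hp.prime _).1 h
          rwa [(Nat.prime_dvd_prime_iff_eq hp ((hQm q).1 hq).2.1).1 hpq]
      have hp2 : p ≠ 2 := by
        rintro rfl
        exact hpN0 ((hNp 2 hp).2 h2)
      refine splits_odd p hp2 P1 P2 a (s p) t ?_ (hs p hpQ).1 (hs p hpQ).2
      have h1 : (p : ℤ) ∣ t - t0 := by
        refine dvd_trans ?_ htN
        exact_mod_cast (dvd_prod_of_mem (fun p => p) hpQ).mul_left N0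
      have h3 : (p : ℤ) ∣ (t0 : ℤ) - s p := by
        have h4 := (Nat.modEq_iff_dvd.1 (ht0 p hpQ).symm)
        exact h4
      have e : t - (s p : ℤ) = (t - t0) + (t0 - s p) := by ring
      rw [e]
      exact h1.add h3
  · rintro ⟨t, -, hPt, hspl⟩
    apply haP
    rw [eval_mul] at hPt
    have hPt1 : P1.eval t ≠ 0 := left_ne_zero_of_mul hPt
    have hPt2 : P2.eval t ≠ 0 := right_ne_zero_of_mul hPt
    rw [hP1, lineP_eval] at hPt1
    rw [hP2, lineP_eval] at hPt2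
    rw [hP1, hP2, lineP_eval, lineP_eval] at hspl
    refine ⟨fun i => ((w i + t * ((N0 : ℤ) * v i) : ℤ) : ℚ), ?_, ?_, ?_⟩
    · rw [aeval_cast]
      exact_mod_cast hPt1
    · rw [aeval_cast]
      exact_mod_cast hPt2
    · rw [aeval_cast, aeval_cast]
      push_cast at hspl ⊢
      exact hspl

theorem t1_ (hc : S_CORE) (he : S_EXISTU) (hl : S_LDEG) (hd : S_DISC) (hch : S_CHOOSE)
    (ht : S_TYPE) (hr : S_REALT) : S_T1 := by
  classical
  intro n α β A B hA hB hαβ hsq ε hε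
  by_cases hV : ∃ a : ℕ, 0 < a ∧ HasP A B (a : ℤ) (a : ℤ) ℝ
  swap
  · refine ⟨0, fun H _ => ?_⟩
    have h0 : ((Icc 1 H).filter (fun a : ℕ => Squarefree a ∧ HasP A B (a : ℤ) (a : ℤ) ℝ ∧
      (∀ (p : ℕ) [Fact p.Prime], HasP A B (a : ℤ) (a : ℤ) ℚ_[p]) ∧
      ¬ HasP A B (a : ℤ) (a : ℤ) ℚ)) = ∅ := by
      rw [filter_eq_empty_iff]
      intro a ha h
      exact hV ⟨a, (mem_Icc.1 ha).1, h.2.1⟩
    have h1 : (0 : ℝ) ≤ ε * H := by positivity
    convert h1
    simpa using h0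
  obtain ⟨a0, ha0, hP0⟩ := hV
  obtain ⟨v, hvA, hvB, hvpos⟩ := hr n α β A B hA hB a0 a0 (by exact_mod_cast ha0)
    (by exact_mod_cast ha0) hP0
  have hvF : MvPolynomial.eval v (A * B) ≠ 0 := by
    rw [map_mul]
    exact mul_ne_zero hvA hvB
  have hF : (A * B).IsHomogeneous (2 * α + 2 * β) := hA.mul hB
  obtain ⟨r, hr0, hrw⟩ := hd n _ (A * B) hF hsq v hvF
  obtain ⟨z1, hz1⟩ := hch n r hr0
  obtain ⟨z2, hz2⟩ := he (2 * α + 2 * β)
  have hK : ∀ p : ℕ, ∃ K : ℕ, ∀ [Fact p.Prime], ∀ a b : ℤ, Squarefree a → Squarefree b →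
      HasP A B a b ℚ_[p] → ∃ x0 : Fin (n + 1) → ℕ,
      (∀ i, x0 i < p ^ K) ∧ ∀ x : Fin (n + 1) → ℤ, (∀ i, ((p ^ K : ℕ) : ℤ) ∣ x i - x0 i) →
        MvPolynomial.eval x A ≠ 0 ∧ MvPolynomial.eval x B ≠ 0 ∧
        Splits ((((a * MvPolynomial.eval x A : ℤ))) : ℚ_[p])
          ((((b * MvPolynomial.eval x B : ℤ))) : ℚ_[p]) := by
    intro p
    by_cases hp : p.Prime
    · haveI := Fact.mk hp
      obtain ⟨K, hK⟩ := ht n α β A B hA hB p
      exact ⟨K, fun {_} a b => hK a b⟩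
    · exact ⟨0, fun {h} => absurd h.out hp⟩
  choose K hK using hK
  set z := max (max 2 z1) (max z2 (max (2 * α + 2 * β) (MvPolynomial.eval v (A * B)).natAbs)) with hz
  have hza : 2 ≤ z := (le_max_left _ _).trans (le_max_left _ _)
  have hzb : z1 ≤ z := (le_max_right _ _).trans (le_max_left _ _)
  have hzc : z2 ≤ z := (le_max_left _ _).trans (le_max_right _ _)
  have hzd : 2 * α + 2 * β ≤ z :=
    ((le_max_left _ _).trans (le_max_right _ _)).trans (le_max_right _ _)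
  have hze : (MvPolynomial.eval v (A * B)).natAbs ≤ z :=
    ((le_max_right _ _).trans (le_max_right _ _)).trans (le_max_right _ _)
  set Ps := (range (z + 1)).filter Nat.Prime with hPs
  have hPm : ∀ p, p ∈ Ps ↔ p ≤ z ∧ p.Prime := by
    intro p
    rw [hPs, mem_filter, mem_range, Nat.lt_succ_iff]
  set N0 := ∏ p ∈ Ps, p ^ (K p + 1) with hN0
  have hN1 : 1 ≤ N0 := Finset.prod_pos fun p hp => pow_pos ((hPm p).1 hp).2.pos _
  have hNK : ∀ p : ℕ, p.Prime → p ≤ z → p ^ K p ∣ N0 := fun p hp hpz =>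
    (pow_dvd_pow p (Nat.le_succ _)).trans (dvd_prod_of_mem (fun p => p ^ (K p + 1))
      ((hPm p).2 ⟨hpz, hp⟩))
  have hNp : ∀ p : ℕ, p.Prime → (p ∣ N0 ↔ p ≤ z) := by
    intro p hp
    constructor
    · intro h
      obtain ⟨q, hq, hpq⟩ := (Prime.dvd_finset_prod_iff hp.prime _).1 h
      have h1 := hp.dvd_of_dvd_pow hpq
      rw [(Nat.prime_dvd_prime_iff_eq hp ((hPm q).1 hq).2).1 h1]
      exact ((hPm q).1 hq).1
    · intro hpz
      exact (dvd_pow_self p (Nat.succ_ne_zero _)).trans (dvd_prod_of_mem (fun p => p ^ (K p + 1))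
        ((hPm p).2 ⟨hpz, hp⟩))
  -- every number has a type
  set T : Finset (Fin (n + 1) → ℕ) := Fintype.piFinset (fun _ => range N0) with hT
  have hTne : T.Nonempty := by
    rw [hT, Fintype.piFinset_nonempty]
    exact fun _ => ⟨0, mem_range.2 hN1⟩
  have hTc : (0 : ℝ) < T.card := by exact_mod_cast hTne.card_pos
  have htyp : ∀ a : ℕ, Squarefree a →
      (∀ (p : ℕ) [Fact p.Prime], HasP A B (a : ℤ) (a : ℤ) ℚ_[p]) →
      ∃ x ∈ T, Typ A B K z a x := by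
    intro a ha hloc
    have hx : ∀ p : ℕ, ∃ x0 : Fin (n + 1) → ℕ, ∀ [Fact p.Prime], ∀ x : Fin (n + 1) → ℤ,
        (∀ i, ((p ^ K p : ℕ) : ℤ) ∣ x i - x0 i) →
        Splits (((((a : ℤ) * MvPolynomial.eval x A : ℤ))) : ℚ_[p])
          (((((a : ℤ) * MvPolynomial.eval x B : ℤ))) : ℚ_[p]) := by
      intro p
      by_cases hp : p.Prime
      · haveI := Fact.mk hp
        have ha' : Squarefree (a : ℤ) := Int.squarefree_natCast.2 ha
        obtain ⟨x0, -, hx0⟩ := hK p (a : ℤ) (a : ℤ) ha' ha' (hloc p)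
        exact ⟨x0, fun {_} x hx => (hx0 x hx).2.2⟩
      · exact ⟨fun _ => 0, fun {h} => absurd h.out hp⟩
    choose x0 hx0 using hx
    have hk : ∀ i : Fin (n + 1), ∃ k : ℕ, ∀ p ∈ Ps, k ≡ x0 p i [MOD p ^ K p] := fun i =>
      crt Ps (fun p => p ^ K p) (fun p => x0 p i)
        (fun p hp => (pow_pos ((hPm p).1 hp).2.pos _).ne')
        (fun p hp q hq hpq => Nat.Coprime.pow _ _
          ((Nat.coprime_primes ((hPm p).1 hp).2 ((hPm q).1 hq).2).2 hpq))
    choose k hk using hk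
    refine ⟨fun i => k i % N0, ?_, ?_⟩
    · rw [hT, Fintype.mem_piFinset]
      exact fun i => mem_range.2 (Nat.mod_lt _ hN1)
    · intro p hpF hpz y hy
      have hp := hpF.out
      refine hx0 p y fun i => ?_
      have h1 : k i % N0 ≡ x0 p i [MOD p ^ K p] :=
        (Nat.ModEq.of_dvd (hNK p hp hpz) (Nat.mod_modEq (k i) N0)).trans
          (hk i p ((hPm p).2 ⟨hpz, hp⟩))
      have h2 := Nat.modEq_iff_dvd.1 h1.symm
      have e : y i - (x0 p i : ℤ) = (y i - ((k i % N0 : ℕ) : ℤ)) +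
        (((k i % N0 : ℕ) : ℤ) - x0 p i) := by ring
      rw [e]
      exact (hy i).add h2
  set ε' := ε / (2 * T.card) with hε'
  have hε'0 : 0 < ε' := by positivity
  have hmain : ∀ x : Fin (n + 1) → ℕ, ∃ (w : Fin (n + 1) → ℤ) (H0 : ℕ),
      (∑ p ∈ (MvPolynomial.eval w r).natAbs.primeFactors.filter (fun p => ¬ p ∣ N0),
        1 / (p : ℝ) ≤ ε') ∧ MvPolynomial.eval w r ≠ 0 ∧
      ∀ H : ℕ, H0 ≤ H → (((Icc 1 H).filter (fun a : ℕ => Squarefree a ∧
        Typ A B K z a x ∧ ¬ HasP A B (a : ℤ) (a : ℤ) ℚ ∧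
        ∀ p : ℕ, p.Prime → (p : ℤ) ∣ MvPolynomial.eval w r → ¬ p ∣ N0 → ¬ p ∣ a)).card : ℝ)
          ≤ ε' * H := by
    intro x
    obtain ⟨w, hw1, hw2, hw3⟩ := hz1 N0 hN1 (fun p hp hpz => (hNp p hp).2 (hpz.trans hzb))
      (fun i => (x i : ℤ)) ε' hε'0
    obtain ⟨a1, b1, hab⟩ := hrw w
    obtain ⟨H0, hH0⟩ := per_type hc hl A B hA hB hαβ v hvA hvB hvpos z2 hz2 K z hza hzc hzd
      (fun p hp hpv => by
        have h1 : p ∣ (MvPolynomial.eval v (A * B)).natAbs := Int.natCast_dvd.1 hpv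
        exact (Nat.le_of_dvd (Int.natAbs_pos.2 hvF) h1).trans hze)
      N0 hN1 hNp hNK x w hw1 _ hw2 a1 b1 hab ε' hε'0
    refine ⟨w, H0, hw3, hw2, fun H hH => ?_⟩
    convert hH0 H hH
  choose w H0 hw1 hw2 hw3 using hmain
  refine ⟨T.sup H0, fun H hH => ?_⟩
  have key := count T ((Icc 1 H).filter (fun a : ℕ => Squarefree a ∧
      HasP A B (a : ℤ) (a : ℤ) ℝ ∧
      (∀ (p : ℕ) [Fact p.Prime], HasP A B (a : ℤ) (a : ℤ) ℚ_[p]) ∧
      ¬ HasP A B (a : ℤ) (a : ℤ) ℚ))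
    (fun x => (Icc 1 H).filter (fun a : ℕ => ∃ p ∈ (MvPolynomial.eval (w x)
      r).natAbs.primeFactors.filter (fun p => ¬ p ∣ N0), p ∣ a))
    (fun x => (Icc 1 H).filter (fun a : ℕ => Squarefree a ∧
        Typ A B K z a x ∧ ¬ HasP A B (a : ℤ) (a : ℤ) ℚ ∧
        ∀ p : ℕ, p.Prime → (p : ℤ) ∣ MvPolynomial.eval (w x) r → ¬ p ∣ N0 → ¬ p ∣ a))
    ε' H ?_ ?_ ?_
  · have e : (T.card : ℝ) * (2 * ε') * H = ε * H := by
      rw [hε']
      field_simp
    rw [e] at key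
    convert key
  · intro a ha
    rw [mem_filter] at ha
    obtain ⟨haI, hasq, -, hloc, hno⟩ := ha
    obtain ⟨x, hxT, hx⟩ := htyp a hasq hloc
    refine ⟨x, hxT, ?_⟩
    by_cases hdv : ∃ p ∈ (MvPolynomial.eval (w x) r).natAbs.primeFactors.filter
        (fun p => ¬ p ∣ N0), p ∣ a
    · exact Or.inl (mem_filter.2 ⟨haI, hdv⟩)
    · refine Or.inr (mem_filter.2 ⟨haI, hasq, hx, hno, ?_⟩)
      intro p hp hpr hpN hpa
      refine hdv ⟨p, mem_filter.2 ⟨?_, hpN⟩, hpa⟩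
      exact Nat.mem_primeFactors.2 ⟨hp, Int.natCast_dvd.1 hpr, Int.natAbs_ne_zero.2 (hw2 x)⟩
  · intro x hx
    refine (card_mult _ H).trans ?_
    exact mul_le_mul_of_nonneg_right (hw1 x) (Nat.cast_nonneg _)
  · intro x hx
    exact hw3 x H ((le_sup hx).trans hH)

end Pool.Agent.W613.HBT
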